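import Pool.Agent.Helper89.Vol5.All

/-!
# The exact value of `V(5,8)` and the polytopes that attain it

`E d = EuclideanSpace ℝ (Fin d)`; `Admissible d n P`: `P` is a `d`-dimensional convex polytope in `E d` with exactly `n`
vertices and diameter one; `V d n` is the supremum of the volumes of these polytopes
(`Pool/Agent/Helper86/Poly/Defs.lean`). `h5 t = √(3/2 - t²) + t √(6 - (1 + 2t)²)` and `Q5 t` are the eight points
`(-r/2,0,∓1/2,0,0)`, `(0,r(y-h),0,∓1/2,0)`, `(r/2,0,0,0,∓1/2)`, `(rt,ry,0,0,0)`, `(-rt,ry,0,0,0)` with `r = 1/√2`,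
`h = √(3/2 - t²)`, `y = √(6 - (1 + 2t)²)/2` (`Pool/Agent/Helper89/Vol5/Goals.lean`).
-/

set_option autoImplicit false

namespace Pool.Agent.Results.MP_cd13d2_co.EightVertices

open MeasureTheory Set
open Pool.Agent.Helper86.Poly Pool.Agent.Helper89.Vol5

theorem result :
    -- (1) the maximum `V(5,8)` is attained
    IsGreatest {v : ℝ | ∃ P : Set (E 5), Admissible 5 8 P ∧ v = (volume P).toReal} (V 5 8) ∧
    -- (2) the value of `V(5,8)`; (3) the polytopes that attain it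
    ∃ t ∈ Icc (0 : ℝ) (7 / 10),
      128 * t ^ 6 + 192 * t ^ 5 - 288 * t ^ 4 - 416 * t ^ 3 + 192 * t ^ 2 + 180 * t - 75 = 0 ∧
      0.455 < t ∧ t < 0.4551 ∧ (∀ s ∈ Icc (0 : ℝ) (7 / 10), s ≠ t → h5 s < h5 t) ∧
      240 * V 5 8 = h5 t ∧ 0.0076453 < V 5 8 ∧ V 5 8 < 0.0076454 ∧
      ∀ P : Set (E 5), (Admissible 5 8 P ∧ (volume P).toReal = V 5 8) ↔
        ∃ φ : E 5 ≃ᵢ E 5, P = φ '' convexHull ℝ (range (Q5 t)) :=
  main sALL sFINa sFINb sP41 sP32 sP312 sP2212 sP7 sP222 sP222E sNUM sUNI sLD sLV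
    Pool.Agent.Helper89.Vol.qTUP pATT

end Pool.Agent.Results.MP_cd13d2_co.EightVertices
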