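import Pool.Agent.Helper86.Poly.Lim2

/-!
# The maximal volume of polytopes of diameter one with `d + k` vertices, `k` fixed

`(d! V(d, d + k))^2 2^d / (d + k)^k` converges for `d → ∞`; the limit is the supremum.
-/

set_option autoImplicit false

namespace Pool.Agent.Results.MP_cd13d2_co.FewVertices

open Filter Topology
open Pool.Agent.Helper86.Poly

theorem result (k : ℕ) (hk : 1 ≤ k) : ∃ L : ℝ,
    Tendsto (fun d : ℕ => ((d.factorial : ℝ) * V d (d + k)) ^ 2 * 2 ^ d / ((d : ℝ) + k) ^ k)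
      atTop (𝓝 L) ∧
    (∀ d : ℕ, 1 ≤ d →
      ((d.factorial : ℝ) * V d (d + k)) ^ 2 * 2 ^ d / ((d : ℝ) + k) ^ k ≤ L) ∧
    1 / (k : ℝ) ^ k ≤ L ∧ L ≤ Real.exp ((k : ℝ) - 1) / (k * k.factorial) := by
  obtain ⟨L, h1, h2, h3, h4⟩ := few k hk
  exact ⟨L, h1, h2, h3, h4⟩

end Pool.Agent.Results.MP_cd13d2_co.FewVertices
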