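import Pool.Agent.Helper89.Vol4.All

/-!
# The exact value of `V(4,7)` and the polytopes that attain it

`E d = EuclideanSpace ℝ (Fin d)`; `Admissible d n P`: `P` is a `d`-dimensional convex polytope in `E d` with exactly `n`
vertices and diameter one; `V d n` is the supremum of the volumes of these polytopes
(`Pool/Agent/Helper86/Poly/Defs.lean`). `f4 N = √(3/4 - N²) + N √(3 - (1 + 2N)²)` and `Q4 N` are the seven points
`(-N,0,-1/2,0), (-N,0,1/2,0), (N,0,0,-1/2), (N,0,0,1/2), (1/2,v,0,0), (0,M,0,0), (-1/2,v,0,0)` with `M = √(3/4 - N²)`,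
`v = √(3/4 - (1/2 + N)²)` (`Pool/Agent/Helper89/Vol4/Goals.lean`).
-/

set_option autoImplicit false

namespace Pool.Agent.Results.MP_cd13d2_co.SevenVertices

open MeasureTheory Set
open Pool.Agent.Helper86.Poly Pool.Agent.Helper89.Vol4

theorem result :
    -- (1) the maximum `V(4,7)` is attained
    IsGreatest {v : ℝ | ∃ P : Set (E 4), Admissible 4 7 P ∧ v = (volume P).toReal} (V 4 7) ∧
    -- (2) the value of `V(4,7)`; (3) the polytopes that attain it
    ∃ N ∈ Icc (0 : ℝ) (3 / 10),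
      64 * N ^ 6 + 96 * N ^ 5 - 48 * N ^ 4 - 100 * N ^ 3 + 3 * N ^ 2 + 18 * N - 3 = 0 ∧
      0.224 < N ∧ N < 0.2241 ∧ (∀ M ∈ Icc (0 : ℝ) (3 / 10), M ≠ N → f4 M < f4 N) ∧
      24 * V 4 7 = f4 N ∧ 0.043727 < V 4 7 ∧ V 4 7 < 0.0437271 ∧
      ∀ P : Set (E 4), (Admissible 4 7 P ∧ (volume P).toReal = V 4 7) ↔
        ∃ φ : E 4 ≃ᵢ E 4, P = φ '' convexHull ℝ (range (Q4 N)) :=
  main rALL rFIN rP31 rP212 rPF rP22 rP22E rNUM rUNI rLD rLV Pool.Agent.Helper89.Vol.qTUP pATT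

end Pool.Agent.Results.MP_cd13d2_co.SevenVertices
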