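import Pool.Agent.Helper89.Vol.All

/-!
# The exact value of `V(3,6)` and the polytopes that attain it

`E d = EuclideanSpace ℝ (Fin d)`; `Admissible d n P`: `P` is a `d`-dimensional convex polytope in `E d` with exactly `n`
vertices and diameter one; `V d n` is the supremum of the volumes of these polytopes
(`Pool/Agent/Helper86/Poly/Defs.lean`). `f N = √(3/4 - N²) + N √(4 - (1 + 2N)²)` and `Q N` are the six points
`(0,0,0), (0,0,1), (-1/2,h,1/2), (-N,M,1/2), (N,M,1/2), (1/2,h,1/2)` with `M = √(3/4 - N²)`,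
`h = M - √(1 - (1/2 + N)²)` (`Pool/Agent/Helper89/Vol/Goals.lean`).
-/

set_option autoImplicit false

namespace Pool.Agent.Results.MP_cd13d2_co.SixVertices

open MeasureTheory Set
open Pool.Agent.Helper86.Poly Pool.Agent.Helper89.Vol

theorem result :
    -- (1) the maximum `V(3,6)` is attained
    IsGreatest {v : ℝ | ∃ P : Set (E 3), Admissible 3 6 P ∧ v = (volume P).toReal} (V 3 6) ∧
    -- (2) the value of `V(3,6)`; (3) the polytopes that attain it
    ∃ N ∈ Icc (0 : ℝ) (1 / 2),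
      256 * N ^ 6 + 384 * N ^ 5 - 256 * N ^ 4 - 448 * N ^ 3 + 84 * N ^ 2 + 108 * N - 27 = 0 ∧
      0.3032 < N ∧ N < 0.3033 ∧ (∀ M ∈ Icc (0 : ℝ) (1 / 2), M ≠ N → f M < f N) ∧
      6 * V 3 6 = f N ∧ 0.1954088 < V 3 6 ∧ V 3 6 < 0.195409 ∧
      ∀ P : Set (E 3), (Admissible 3 6 P ∧ (volume P).toReal = V 3 6) ↔
        ∃ φ : E 3 ≃ᵢ E 3, P = φ '' convexHull ℝ (range (Q N)) :=
  main qALL qFIN2 qPATH qPATHE qNUM qUNI qLD qLV qTUP pATT

end Pool.Agent.Results.MP_cd13d2_co.SixVertices
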